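import Mathlib

set_option autoImplicit false

namespace Pool.Agent.Results.MP_4640da_an.Main

open scoped ComplexOrder ComplexConjugate

/-- A function `φ` on a group is positive definite if
`∑_{i,j} c_i conj(c_j) φ(g_j⁻¹ g_i) ≥ 0` for all finite families `g_i`, `c_i`. -/
def IsPosDef {G : Type*} [Group G] (φ : G → ℂ) : Prop :=
  ∀ (n : ℕ) (g : Fin n → G) (c : Fin n → ℂ),
    0 ≤ ∑ i, ∑ j, c i * conj (c j) * φ ((g j)⁻¹ * g i)

/-- The set `P₁(F)^{Aut(F)}` for the free group `F` on `Fin r`: normalized positive definite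
functions invariant under every automorphism. -/
def invStates (r : ℕ) : Set (FreeGroup (Fin r) → ℂ) :=
  {φ | IsPosDef φ ∧ φ 1 = 1 ∧
    ∀ α : FreeGroup (Fin r) ≃* FreeGroup (Fin r), ∀ g, φ (α g) = φ g}

section PosDef

variable {G : Type*} [Group G] {φ : G → ℂ}

lemma IsPosDef.fintype (h : IsPosDef φ) {ι : Type*} [Fintype ι] (g : ι → G) (c : ι → ℂ) :
    0 ≤ ∑ i, ∑ j, c i * conj (c j) * φ ((g j)⁻¹ * g i) := by
  have e := Fintype.equivFin ι
  have := h (Fintype.card ι) (g ∘ e.symm) (c ∘ e.symm)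
  convert this using 1
  rw [← e.symm.sum_comp]
  refine Finset.sum_congr rfl fun i _ => ?_
  rw [← e.symm.sum_comp]
  rfl

lemma IsPosDef.two (h : IsPosDef φ) (g : G) (z : ℂ) :
    0 ≤ φ 1 + z * conj z * φ 1 + conj z * φ g + z * φ g⁻¹ := by
  have := h 2 ![g, 1] ![1, z]
  simp [Fin.sum_univ_two] at this
  convert this using 1
  ring

lemma IsPosDef.inv (h : IsPosDef φ) (h1 : φ 1 = 1) (g : G) : φ g⁻¹ = conj (φ g) := by
  have a := h.two g 1
  have b := h.two g Complex.I
  rw [Complex.le_def] at a b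
  simp [h1] at a b
  apply Complex.ext <;> simp
  · linarith [b.2]
  · linarith [a.2]

lemma IsPosDef.re_le (h : IsPosDef φ) (h1 : φ 1 = 1) (g : G) : (φ g).re ≤ 1 := by
  have a := h.two g (-1)
  rw [h.inv h1, Complex.le_def] at a
  simp [h1] at a
  linarith

lemma IsPosDef.norm_le (h : IsPosDef φ) (h1 : φ 1 = 1) (g : G) : ‖φ g‖ ≤ 1 := by
  have a := h.two g (-φ g)
  rw [h.inv h1] at a
  have e : φ 1 + -φ g * conj (-φ g) * φ 1 + conj (-φ g) * φ g + -φ g * conj (φ g)
      = ((1 - ‖φ g‖ ^ 2 : ℝ) : ℂ) := by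
    rw [h1]
    push_cast
    rw [← Complex.mul_conj']
    simp
    ring
  rw [e, Complex.zero_le_real] at a
  nlinarith [norm_nonneg (φ g)]

lemma IsPosDef.mul_right_eq (h : IsPosDef φ) (h1 : φ 1 = 1) (g n : G) (hn : φ n = 1) :
    φ (g * n) = φ g := by
  by_contra hne
  set d : ℂ := φ g - φ (g * n) with hd
  have hd0 : d ≠ 0 := fun h0 => hne (by rw [hd] at h0; exact (sub_eq_zero.1 h0).symm)
  have key : ∀ s : ℝ, 0 ≤ s ^ 2 * ‖d‖ ^ 2 + 2 * s * ‖d‖ ^ 2 := by
    intro s
    have := h 3 ![1, g, g * n] ![s * d, 1, -1]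
    have hinv : φ n⁻¹ = 1 := by rw [h.inv h1, hn]; simp
    simp only [Fin.sum_univ_three] at this
    simp [h1, hn, hinv, mul_assoc] at this
    have i1 : φ g⁻¹ = conj (φ g) := h.inv h1 g
    have i2 : φ (n⁻¹ * g⁻¹) = conj (φ (g * n)) := by rw [← mul_inv_rev]; exact h.inv h1 _
    rw [i1, i2] at this
    have e : s * (d * (s * conj d)) + s * (d * conj (φ g)) + -(s * (d * conj (φ (g * n)))) +
        s * (conj d * φ g) - s * (conj d * φ (g * n))
        = ((s ^ 2 * ‖d‖ ^ 2 + 2 * s * ‖d‖ ^ 2 : ℝ) : ℂ) := by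
      push_cast
      rw [← Complex.mul_conj', hd]
      simp
      ring
    have h2 := sub_nonneg.2 this
    rw [e, Complex.zero_le_real] at h2
    exact h2
  have := key (-1)
  have hpos : 0 < ‖d‖ ^ 2 := by positivity
  linarith

end PosDef


section Main

variable (r p : ℕ)

/-- The abelianization of the free group modulo `p`. -/
def ab : FreeGroup (Fin r) →* Multiplicative (Fin r → ZMod p) :=
  FreeGroup.lift fun i => Multiplicative.ofAdd (Pi.single i 1)

/-- The candidate: `1` on the kernel of `F → (ℤ/p)^r`, and `-1/(p^r-1)` elsewhere. -/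
noncomputable def tau : FreeGroup (Fin r) → ℂ := fun w =>
  open Classical in if ab r p w = 1 then 1 else -1 / ((p : ℂ) ^ r - 1)

variable {r p}

lemma hom_eq (h : FreeGroup (Fin r) →* Multiplicative (Fin r → ZMod p))
    (w : FreeGroup (Fin r)) :
    Multiplicative.toAdd (h w) =
      ∑ i, (Multiplicative.toAdd (ab r p w) i) • Multiplicative.toAdd (h (FreeGroup.of i)) := by
  let h' : FreeGroup (Fin r) →* Multiplicative (Fin r → ZMod p) :=
    MonoidHom.mk' (fun w => Multiplicative.ofAdd (∑ i, (Multiplicative.toAdd (ab r p w) i) •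
      Multiplicative.toAdd (h (FreeGroup.of i)))) (by
        intro a b
        rw [← ofAdd_add, ← Finset.sum_add_distrib]
        simp only [map_mul, toAdd_mul, Pi.add_apply, add_smul])
  have : h = h' := by
    refine FreeGroup.ext_hom _ _ fun j => ?_
    change _ = Multiplicative.ofAdd _
    simp [ab, Pi.single_apply]
  exact congrArg Multiplicative.toAdd (DFunLike.congr_fun this w)

lemma ab_aut (α : FreeGroup (Fin r) ≃* FreeGroup (Fin r)) {w : FreeGroup (Fin r)}
    (hw : ab r p w = 1) : ab r p (α w) = 1 := by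
  have := hom_eq ((ab r p).comp α.toMonoidHom) w
  rw [hw] at this
  simpa using this

lemma tau_inv (α : FreeGroup (Fin r) ≃* FreeGroup (Fin r)) (w : FreeGroup (Fin r)) :
    tau r p (α w) = tau r p w := by
  have : ab r p (α w) = 1 ↔ ab r p w = 1 := by
    constructor
    · intro h
      have := ab_aut α.symm h
      simpa using this
    · exact ab_aut α
  simp only [tau, this]

/-- The transvection `x_i ↦ x_i x_j^k` as a homomorphism. -/
def transHom (i j : Fin r) (k : ℤ) : FreeGroup (Fin r) →* FreeGroup (Fin r) :=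
  FreeGroup.lift fun l => if l = i then FreeGroup.of i * FreeGroup.of j ^ k else FreeGroup.of l

lemma transHom_comp {i j : Fin r} (hij : i ≠ j) (k : ℤ) :
    (transHom i j (-k)).comp (transHom i j k) = MonoidHom.id _ := by
  refine FreeGroup.ext_hom _ _ fun l => ?_
  by_cases hl : l = i
  · subst hl
    simp [transHom, hij.symm]
  · simp [transHom, hl]

/-- The transvection `x_i ↦ x_i x_j^k` as an automorphism. -/
def trans {i j : Fin r} (hij : i ≠ j) (k : ℤ) : FreeGroup (Fin r) ≃* FreeGroup (Fin r) :=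
  MonoidHom.toMulEquiv (transHom i j k) (transHom i j (-k)) (transHom_comp hij k)
    (by simpa using transHom_comp hij (-k))

lemma ab_trans {i j : Fin r} (hij : i ≠ j) (k : ℤ) (w : FreeGroup (Fin r)) :
    Multiplicative.toAdd (ab r p (trans hij k w)) =
      Multiplicative.toAdd (ab r p w) +
        Pi.single j ((k : ZMod p) * Multiplicative.toAdd (ab r p w) i) := by
  have := hom_eq ((ab r p).comp (trans hij k).toMonoidHom) w
  have e : ∀ l, Multiplicative.toAdd ((ab r p).comp (trans hij k).toMonoidHom (FreeGroup.of l)) =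
      Pi.single l (1 : ZMod p) + if l = i then Pi.single j (k : ZMod p) else 0 := by
    intro l
    by_cases hl : l = i
    · subst hl
      simp [trans, transHom, ab]
      ext m
      by_cases hm : m = j
      · subst hm; simp
      · simp [hm]
    · simp [trans, transHom, ab, hl]
  rw [show ab r p (trans hij k w) = (ab r p).comp (trans hij k).toMonoidHom w from rfl, this]
  simp only [e, smul_add, Finset.sum_add_distrib]
  congr 1
  · ext l
    simp [Finset.sum_apply, Pi.single_apply]
  · simp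
    rw [mul_comm]
    ext l
    by_cases hl : l = j
    · subst hl; simp
    · simp [hl]


/-- key transitivity statement: an invariant function factoring through `(ℤ/p)^r` is constant
off the kernel. -/
lemma const_of_inv [Fact p.Prime] (ψ : (Fin r → ZMod p) → ℂ) (hr : 2 ≤ r)
    (hψ : ∀ i j : Fin r, i ≠ j → ∀ (k : ZMod p) (v : Fin r → ZMod p),
      ψ (v + Pi.single j (k * v i)) = ψ v) {v w : Fin r → ZMod p} (hv : v ≠ 0) (hw : w ≠ 0) :
    ψ v = ψ w := by
  -- changing a coordinate
  have step : ∀ (i j : Fin r), i ≠ j → ∀ (v : Fin r → ZMod p), v i ≠ 0 → ∀ x : ZMod p,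
      ψ (Function.update v j x) = ψ v := by
    intro i j hij v hvi x
    rw [← hψ i j hij ((x - v j) / v i) v]
    congr 1
    ext l
    by_cases hl : l = j
    · subst hl
      simp [div_mul_cancel₀ _ hvi]
    · simp [hl]
  -- changing all coordinates other than `i`
  have steps : ∀ (i : Fin r) (v w : Fin r → ZMod p), v i ≠ 0 → v i = w i → ψ v = ψ w := by
    intro i v w hvi hw
    have : ∀ s : Finset (Fin r), i ∉ s → ψ (fun l => if l ∈ s then w l else v l) = ψ v := by
      intro s
      induction s using Finset.induction_on with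
      | empty => intro _; simp
      | insert a s ha ih =>
        intro hi
        simp only [Finset.mem_insert, not_or] at hi
        rw [← ih hi.2, ← step i a hi.1 (fun l => if l ∈ s then w l else v l)
          (by simpa [hi.2] using hvi) (w a)]
        congr 1
        ext l
        by_cases hl : l = a
        · subst hl; simp
        · simp [hl]
    have h2 := this (Finset.univ.erase i) (by simp)
    rw [← h2]
    congr 1
    ext l
    by_cases hl : l = i
    · subst hl; simp [hw]
    · simp [hl]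
  have e0 : ∀ (v : Fin r → ZMod p) (i j : Fin r), i ≠ j → v i ≠ 0 → ψ v = ψ (Pi.single j 1) := by
    intro v i j hij hvi
    have h1 : ψ v = ψ (Function.update (Pi.single j 1) i (v i)) :=
      steps i _ _ hvi (by simp)
    rw [h1]
    refine steps j _ _ ?_ ?_
    · simp [hij.symm]
    · simp [hij.symm]
  have e1 : ∀ v : Fin r → ZMod p, v ≠ 0 → ψ v = ψ (Pi.single ⟨0, by omega⟩ 1) := by
    intro v hv
    by_cases h : ∃ i : Fin r, i ≠ ⟨0, by omega⟩ ∧ v i ≠ 0
    · obtain ⟨i, hi, hvi⟩ := h
      exact e0 v i _ hi hvi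
    · push Not at h
      have h0 : v ⟨0, by omega⟩ ≠ 0 := by
        intro h0
        apply hv
        ext l
        by_cases hl : l = ⟨0, by omega⟩
        · subst hl; exact h0
        · exact h l hl
      rw [e0 v ⟨0, by omega⟩ ⟨1, by omega⟩ (by simp) h0]
      exact e0 _ ⟨1, by omega⟩ ⟨0, by omega⟩ (by simp) (by simp)
  rw [e1 v hv, e1 w hw]


lemma ab_surj (v : Fin r → ZMod p) : ∃ w, ab r p w = Multiplicative.ofAdd v := by
  have h : ∀ s : Finset (Fin r), ∃ w : FreeGroup (Fin r),
      Multiplicative.toAdd (ab r p w) = ∑ i ∈ s, Pi.single i (v i) := by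
    intro s
    induction s using Finset.induction_on with
    | empty => exact ⟨1, by simp⟩
    | insert a s ha ih =>
      obtain ⟨w, hw⟩ := ih
      obtain ⟨k, hk⟩ := ZMod.intCast_surjective (v a)
      refine ⟨FreeGroup.of a ^ k * w, ?_⟩
      rw [Finset.sum_insert ha, map_mul, toAdd_mul, hw]
      congr 1
      simp [ab]
      rw [← hk]
      ext l
      by_cases hl : l = a
      · subst hl; simp
      · simp [hl]
  obtain ⟨w, hw⟩ := h Finset.univ
  refine ⟨w, ?_⟩
  rw [Finset.univ_sum_single] at hw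
  rw [← hw]
  rfl

/-- A section of `ab`. -/
noncomputable def sec (v : Fin r → ZMod p) : FreeGroup (Fin r) := (ab_surj v).choose

lemma ab_sec (v : Fin r → ZMod p) : ab r p (sec v) = Multiplicative.ofAdd v :=
  (ab_surj v).choose_spec

lemma sec_inv_mul (v w : Fin r → ZMod p) : ab r p ((sec w)⁻¹ * sec v) = 1 ↔ v = w := by
  rw [map_mul, map_inv, ab_sec, ab_sec, inv_mul_eq_one]
  exact ⟨fun h => (Multiplicative.ofAdd.injective h).symm, fun h => by rw [h]⟩

/-- An invariant state that is `1` on the kernel has a single value off the kernel, and this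
value is at least `-1/(p^r-1)`. -/
lemma value_of_inv [Fact p.Prime] (hr : 2 ≤ r) {φ : FreeGroup (Fin r) → ℂ}
    (hφ : φ ∈ invStates r) (hN : ∀ w, ab r p w = 1 → φ w = 1) :
    ∃ c : ℂ, (∀ w, ab r p w ≠ 1 → φ w = c) ∧ -1 / ((p : ℂ) ^ r - 1) ≤ c := by
  obtain ⟨hpd, h1, hinv⟩ := hφ
  have hfac : ∀ w w', ab r p w = ab r p w' → φ w = φ w' := by
    intro w w' h
    have := hpd.mul_right_eq h1 w (w⁻¹ * w') (hN _ (by rw [map_mul, map_inv, h]; simp))
    rw [← this]
    congr 1
    group
  let ψ : (Fin r → ZMod p) → ℂ := fun v => φ (sec v)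
  have hψ : ∀ w, φ w = ψ (Multiplicative.toAdd (ab r p w)) := by
    intro w
    apply hfac
    rw [ab_sec]
    rfl
  have hψ' : ∀ i j : Fin r, i ≠ j → ∀ (k : ZMod p) (v : Fin r → ZMod p),
      ψ (v + Pi.single j (k * v i)) = ψ v := by
    intro i j hij k v
    obtain ⟨k', hk'⟩ := ZMod.intCast_surjective k
    have := hinv (trans hij k') (sec v)
    rw [hψ, hψ (sec v), ab_trans, ab_sec, hk'] at this
    exact this
  have hconst : ∀ {v w : Fin r → ZMod p}, v ≠ 0 → w ≠ 0 → ψ v = ψ w :=
    fun hv hw => const_of_inv ψ hr hψ' hv hw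
  have hone : (Pi.single ⟨0, by omega⟩ 1 : Fin r → ZMod p) ≠ 0 := by simp
  refine ⟨ψ (Pi.single ⟨0, by omega⟩ 1), ?_, ?_⟩
  · intro w hw
    rw [hψ]
    refine hconst ?_ hone
    intro h
    apply hw
    exact Multiplicative.toAdd.injective h
  · set c := ψ (Pi.single ⟨0, by omega⟩ 1) with hc
    have hpos := hpd.fintype (ι := Fin r → ZMod p) (fun v => sec v) (fun _ => 1)
    have hcard : Fintype.card (Fin r → ZMod p) = p ^ r := by simp [ZMod.card]
    have hval : ∀ v w : Fin r → ZMod p, φ ((sec w)⁻¹ * sec v) = if v = w then 1 else c := by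
      intro v w
      split_ifs with h
      · exact hN _ ((sec_inv_mul v w).2 h)
      · rw [hψ]
        refine hconst ?_ hone
        intro h'
        apply h
        rw [← sec_inv_mul (p := p)]
        exact Multiplicative.toAdd.injective h'
    have hsum : ∑ v : Fin r → ZMod p, ∑ w : Fin r → ZMod p,
        (1 : ℂ) * conj (1 : ℂ) * φ ((sec w)⁻¹ * sec v) =
        (p : ℂ) ^ r * (1 + ((p : ℂ) ^ r - 1) * c) := by
      have : ∀ v : Fin r → ZMod p, ∑ w : Fin r → ZMod p,
          (1 : ℂ) * conj (1 : ℂ) * φ ((sec w)⁻¹ * sec v) = 1 + ((p : ℂ) ^ r - 1) * c := by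
        intro v
        simp only [hval, map_one, one_mul]
        have e : ∀ w : Fin r → ZMod p, (if v = w then (1 : ℂ) else c) =
            c + if v = w then (1 - c) else 0 := by
          intro w; split_ifs <;> ring
        simp only [e, Finset.sum_add_distrib, Finset.sum_ite_eq, Finset.sum_const,
          Finset.card_univ, hcard, Finset.mem_univ, if_true, nsmul_eq_mul]
        push_cast
        ring
      simp only [this, Finset.sum_const, Finset.card_univ, hcard, nsmul_eq_mul]
      push_cast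
      ring
    rw [hsum] at hpos
    have hp2 : (1 : ℝ) < (p : ℝ) ^ r :=
      one_lt_pow₀ (by exact_mod_cast (Fact.out : p.Prime).one_lt) (by omega)
    have hc' : c = ((c.re : ℝ) : ℂ) ∧ -1 / ((p : ℝ) ^ r - 1) ≤ c.re := by
      rw [Complex.le_def] at hpos
      have e1 : (p : ℂ) ^ r = (((p : ℝ) ^ r : ℝ) : ℂ) := by push_cast; rfl
      rw [e1] at hpos
      simp only [Complex.zero_re, Complex.zero_im, Complex.mul_re, Complex.mul_im,
        Complex.add_re, Complex.add_im, Complex.sub_re, Complex.sub_im, Complex.one_re,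
        Complex.one_im, Complex.ofReal_re, Complex.ofReal_im] at hpos
      obtain ⟨ha, hb⟩ := hpos
      have hb' : ((p : ℝ) ^ r) * (((p : ℝ) ^ r - 1) * c.im) = 0 := by linarith
      have him : c.im = 0 := by
        have h1 : (p : ℝ) ^ r ≠ 0 := by linarith
        have h2 : (p : ℝ) ^ r - 1 ≠ 0 := by linarith
        simpa [h1, h2] using hb'
      refine ⟨Complex.ext (by simp) (by simp [him]), ?_⟩
      rw [div_le_iff₀ (by linarith)]
      have : 0 ≤ (p : ℝ) ^ r * (1 + ((p : ℝ) ^ r - 1) * c.re) := by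
        have := ha
        simp [him] at this
        linarith
      have := nonneg_of_mul_nonneg_right this (by linarith)
      linarith
    rw [hc'.1]
    have e2 : -1 / ((p : ℂ) ^ r - 1) = ((-1 / ((p : ℝ) ^ r - 1) : ℝ) : ℂ) := by push_cast; rfl
    rw [e2]
    exact_mod_cast hc'.2


lemma tau_posDef [Fact p.Prime] (hr : 2 ≤ r) : IsPosDef (tau r p) := by
  classical
  intro n g c
  have hp2 : (1 : ℝ) < (p : ℝ) ^ r :=
    one_lt_pow₀ (by exact_mod_cast (Fact.out : p.Prime).one_lt) (by omega)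
  have hcard : Fintype.card (Fin r → ZMod p) = p ^ r := by simp [ZMod.card]
  -- group the coefficients by class
  let S : (Fin r → ZMod p) → ℂ := fun q =>
    ∑ i, if Multiplicative.toAdd (ab r p (g i)) = q then c i else 0
  have hS : ∑ q, S q = ∑ i, c i := by
    simp only [S]
    rw [Finset.sum_comm]
    simp
  have hS2 : ∑ q, S q * conj (S q) =
      ∑ i, ∑ j, c i * conj (c j) * (if ab r p ((g j)⁻¹ * g i) = 1 then 1 else 0) := by
    simp only [S, map_sum, Finset.sum_mul_sum]
    rw [Finset.sum_comm]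
    refine Finset.sum_congr rfl fun i _ => ?_
    rw [Finset.sum_comm]
    refine Finset.sum_congr rfl fun j _ => ?_
    rw [Finset.sum_eq_single (Multiplicative.toAdd (ab r p (g i)))]
    · have hiff : ab r p ((g j)⁻¹ * g i) = 1 ↔ ab r p (g j) = ab r p (g i) := by
        rw [map_mul, map_inv, inv_mul_eq_one]
      by_cases h : ab r p (g j) = ab r p (g i)
      · rw [if_pos (hiff.2 h)]
        simp [h]
      · have h' : Multiplicative.toAdd (ab r p (g j)) ≠ Multiplicative.toAdd (ab r p (g i)) :=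
          fun h2 => h (Multiplicative.toAdd.injective h2)
        rw [if_neg (fun h3 => h (hiff.1 h3))]
        simp [h']
    · intro b _ hb
      simp [hb.symm]
    · simp
  have hCS : ‖∑ i, c i‖ ^ 2 ≤ (p : ℝ) ^ r * ∑ q, ‖S q‖ ^ 2 := by
    rw [← hS]
    calc ‖∑ q, S q‖ ^ 2 ≤ (∑ q, ‖S q‖) ^ 2 := by gcongr; exact norm_sum_le _ _
      _ ≤ (Finset.univ : Finset (Fin r → ZMod p)).card * ∑ q, ‖S q‖ ^ 2 := sq_sum_le_card_mul_sum_sq
      _ = _ := by rw [Finset.card_univ, hcard]; push_cast; rfl
  have hval : ∀ w, tau r p w = ((p : ℂ) ^ r * (if ab r p w = 1 then 1 else 0) - 1) /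
      ((p : ℂ) ^ r - 1) := by
    intro w
    have hne : (p : ℂ) ^ r - 1 ≠ 0 := by
      have : (((p : ℝ) ^ r - 1 : ℝ) : ℂ) ≠ 0 := by
        rw [Complex.ofReal_ne_zero]; linarith
      simpa using this
    by_cases h : ab r p w = 1
    · simp [tau, h, hne]
    · simp [tau, h]
  have main : ∑ i, ∑ j, c i * conj (c j) * tau r p ((g j)⁻¹ * g i) =
      ((((p : ℝ) ^ r * ∑ q, ‖S q‖ ^ 2 - ‖∑ i, c i‖ ^ 2) / ((p : ℝ) ^ r - 1) : ℝ) : ℂ) := by
    have e1 : ∑ i, ∑ j, c i * conj (c j) * tau r p ((g j)⁻¹ * g i) =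
        ((p : ℂ) ^ r * (∑ i, ∑ j, c i * conj (c j) *
          (if ab r p ((g j)⁻¹ * g i) = 1 then 1 else 0)) -
          (∑ i, c i) * conj (∑ i, c i)) / ((p : ℂ) ^ r - 1) := by
      rw [map_sum, Finset.sum_mul_sum, Finset.mul_sum, ← Finset.sum_sub_distrib, Finset.sum_div]
      refine Finset.sum_congr rfl fun i _ => ?_
      rw [Finset.mul_sum, ← Finset.sum_sub_distrib, Finset.sum_div]
      refine Finset.sum_congr rfl fun j _ => ?_
      rw [hval]
      ring
    rw [e1, ← hS2]
    push_cast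
    congr 2
    · congr 1
      refine Finset.sum_congr rfl fun q _ => ?_
      exact Complex.mul_conj' _
    · exact Complex.mul_conj' _
  rw [main, Complex.zero_le_real]
  apply div_nonneg <;> linarith

lemma tau_mem [Fact p.Prime] (hr : 2 ≤ r) : tau r p ∈ invStates r :=
  ⟨tau_posDef hr, by simp [tau], fun α g => tau_inv α g⟩

end Main

/-- **Main result.** For every rank `r ≥ 2` and every prime `p` there is an extreme point `τ` of
`P₁(F_r)^{Aut(F_r)}`, different from the constant function `1`, whose value at every free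
generator is `-1/(p^r-1)`; in particular `τ(x₁) ≠ 0`. -/
theorem result (r : ℕ) (hr : 2 ≤ r) (p : ℕ) (hp : p.Prime) :
    ∃ τ ∈ Set.extremePoints ℝ (invStates r), τ ≠ (fun _ => 1) ∧
      ∀ i : Fin r, τ (FreeGroup.of i) = -1 / ((p : ℂ) ^ r - 1) ∧ τ (FreeGroup.of i) ≠ 0 := by
  have : Fact p.Prime := ⟨hp⟩
  have hp2 : (1 : ℝ) < (p : ℝ) ^ r :=
    one_lt_pow₀ (by exact_mod_cast hp.one_lt) (by omega)
  have hne : (p : ℂ) ^ r - 1 ≠ 0 := by
    have : (((p : ℝ) ^ r - 1 : ℝ) : ℂ) ≠ 0 := by
      rw [Complex.ofReal_ne_zero]; linarith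
    simpa using this
  have hgen : ∀ i : Fin r, tau r p (FreeGroup.of i) = -1 / ((p : ℂ) ^ r - 1) := by
    intro i
    have : ab r p (FreeGroup.of i) ≠ 1 := by
      intro h
      have h2 := congrFun (congrArg Multiplicative.toAdd h) i
      simp [ab] at h2
    simp [tau, this]
  have hgen0 : ∀ i : Fin r, tau r p (FreeGroup.of i) ≠ 0 := by
    intro i
    rw [hgen]
    exact div_ne_zero (by simp) hne
  refine ⟨tau r p, ?_, ?_, fun i => ⟨hgen i, hgen0 i⟩⟩
  · rw [mem_extremePoints]
    refine ⟨tau_mem hr, ?_⟩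
    intro φ₁ h₁ φ₂ h₂ hseg
    obtain ⟨a, b, ha, hb, hab, hτ⟩ := hseg
    have hτ' : ∀ w, (a : ℂ) * φ₁ w + (b : ℂ) * φ₂ w = tau r p w := by
      intro w
      have := congrFun hτ w
      simpa using this
    have hN : ∀ w, ab r p w = 1 → φ₁ w = 1 ∧ φ₂ w = 1 := by
      intro w hw
      have h := hτ' w
      have hone : tau r p w = 1 := by simp [tau, hw]
      rw [hone] at h
      have r1 := h₁.1.re_le h₁.2.1 w
      have r2 := h₂.1.re_le h₂.2.1 w
      have n1 := h₁.1.norm_le h₁.2.1 w
      have n2 := h₂.1.norm_le h₂.2.1 w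
      have hre := congrArg Complex.re h
      simp at hre
      have e1 : (φ₁ w).re = 1 := by nlinarith
      have e2 : (φ₂ w).re = 1 := by nlinarith
      have aux : ∀ z : ℂ, z.re = 1 → ‖z‖ ≤ 1 → z = 1 := by
        intro z hz hn
        have h3 : ‖z‖ ^ 2 = z.re ^ 2 + z.im ^ 2 := by
          rw [Complex.sq_norm, Complex.normSq_apply]; ring
        have h4 : z.im = 0 := by nlinarith [norm_nonneg z]
        exact Complex.ext (by simp [hz]) (by simp [h4])
      exact ⟨aux _ e1 n1, aux _ e2 n2⟩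
    obtain ⟨c₁, hc₁, hle₁⟩ := value_of_inv hr h₁ (fun w hw => (hN w hw).1)
    obtain ⟨c₂, hc₂, hle₂⟩ := value_of_inv hr h₂ (fun w hw => (hN w hw).2)
    have hout : ab r p (FreeGroup.of ⟨0, by omega⟩) ≠ 1 := by
      intro h
      have h2 := congrFun (congrArg Multiplicative.toAdd h) ⟨0, by omega⟩
      simp [ab] at h2
    have hsum : (a : ℂ) * c₁ + (b : ℂ) * c₂ = -1 / ((p : ℂ) ^ r - 1) := by
      have := hτ' (FreeGroup.of ⟨0, by omega⟩)
      rwa [hc₁ _ hout, hc₂ _ hout, hgen] at this
    have e2 : -1 / ((p : ℂ) ^ r - 1) = ((-1 / ((p : ℝ) ^ r - 1) : ℝ) : ℂ) := by push_cast; rfl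
    rw [e2] at hsum hle₁ hle₂
    rw [Complex.le_def] at hle₁ hle₂
    simp only [Complex.ofReal_re, Complex.ofReal_im] at hle₁ hle₂
    have hre := congrArg Complex.re hsum
    simp only [Complex.add_re, Complex.mul_re, Complex.ofReal_re, Complex.ofReal_im, zero_mul,
      sub_zero] at hre
    generalize hx : (-1 / ((p : ℝ) ^ r - 1) : ℝ) = x at hsum hle₁ hle₂ hre e2
    have k1 : 0 ≤ a * (c₁.re - x) := mul_nonneg ha.le (by linarith [hle₁.1])
    have k2 : 0 ≤ b * (c₂.re - x) := mul_nonneg hb.le (by linarith [hle₂.1])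
    have k3 : a * (c₁.re - x) + b * (c₂.re - x) = 0 := by
      have : b = 1 - a := by linarith
      subst this
      linarith
    have k4 : a * (c₁.re - x) = 0 := by linarith
    have k5 : b * (c₂.re - x) = 0 := by linarith
    have q1 : c₁ = (x : ℂ) := by
      refine Complex.ext ?_ (by rw [Complex.ofReal_im]; exact hle₁.2.symm)
      rw [Complex.ofReal_re]
      rcases mul_eq_zero.1 k4 with h | h
      · linarith
      · linarith
    have q2 : c₂ = (x : ℂ) := by
      refine Complex.ext ?_ (by rw [Complex.ofReal_im]; exact hle₂.2.symm)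
      rw [Complex.ofReal_re]
      rcases mul_eq_zero.1 k5 with h | h
      · linarith
      · linarith
    constructor
    · funext w
      by_cases hw : ab r p w = 1
      · rw [(hN w hw).1]; simp [tau, hw]
      · rw [hc₁ w hw, q1, ← e2]; simp [tau, hw]
    · funext w
      by_cases hw : ab r p w = 1
      · rw [(hN w hw).2]; simp [tau, hw]
      · rw [hc₂ w hw, q2, ← e2]; simp [tau, hw]
  · intro h
    have h0 := hgen ⟨0, by omega⟩
    rw [h] at h0
    have e2 : -1 / ((p : ℂ) ^ r - 1) = ((-1 / ((p : ℝ) ^ r - 1) : ℝ) : ℂ) := by push_cast; rfl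
    rw [e2] at h0
    have h1 : (1 : ℝ) = -1 / ((p : ℝ) ^ r - 1) := by
      have h3 := congrArg Complex.re h0
      rw [Complex.ofReal_re] at h3
      simpa using h3
    have h2 : -1 / ((p : ℝ) ^ r - 1) < 0 := div_neg_of_neg_of_pos (by norm_num) (by linarith)
    linarith

end Pool.Agent.Results.MP_4640da_an.Main
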